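import Pool.Agent.W203.WS.Stm

set_option autoImplicit false

open MeasureTheory Finset

namespace Pool.Agent.H867.WS

open Pool.Agent.W203.WS

theorem Er_nonneg (k s P : ℕ) (ε : ℝ) (hε : 0 ≤ ε) (θ : Fin s → ℝ) : 0 ≤ Er k s P ε θ := by
  unfold Er
  apply integral_nonneg
  intro t
  unfold Kh
  positivity

theorem t_BC (h1 : S_EE) (h2 : S_ID) (h3 : S_JL) : S_BC := by
  intro k s β hk hs hβ0 hβ
  obtain ⟨C, hC, hE⟩ := h1 k s hk (by omega)
  obtain ⟨c, hc, hJ⟩ := h3 k s (by omega) (by omega)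
  set μ : Measure (Fin s → ℝ) := (volume : Measure (Fin s → ℝ)).restrict (cube s) with hμ
  have hfin : IsFiniteMeasure μ := by
    constructor
    rw [hμ, Measure.restrict_apply_univ]
    have : IsCompact (cube s) := isCompact_univ_pi (fun _ => isCompact_Icc)
    exact this.measure_lt_top
  have hP1 : ∀ j : ℕ, (1 : ℝ) ≤ (2 : ℝ) ^ j := fun j => one_le_pow₀ (by norm_num)
  have hP0 : ∀ j : ℕ, (0 : ℝ) < (2 : ℝ) ^ j := fun j => by positivity
  have hcast : ∀ j : ℕ, (((2 ^ j : ℕ)) : ℝ) = (2 : ℝ) ^ j := fun j => by push_cast; rfl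
  have hε0 : ∀ j : ℕ, 0 < ((2 : ℝ) ^ j) ^ (-β) := fun j => Real.rpow_pos_of_pos (hP0 j) _
  have hε1 : ∀ j : ℕ, ((2 : ℝ) ^ j) ^ (-β) ≤ 1 := fun j =>
    Real.rpow_le_one_of_one_le_of_nonpos (hP1 j) (by linarith)
  let f : ℕ → (Fin s → ℝ) → ℝ := fun j θ => Er k s (2 ^ j) (((2 : ℝ) ^ j) ^ (-β)) θ
  let a : ℕ → ℝ := fun j => c / 2 * ((2 : ℝ) ^ j) ^ ((s : ℝ) - k - β)
  have ha : ∀ j, 0 < a j := fun j => by
    have := Real.rpow_pos_of_pos (hP0 j) ((s : ℝ) - k - β)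
    positivity
  let γ : ℝ := (s : ℝ) / 2 - k - β
  have hγ : 0 < γ := by simp only [γ]; linarith
  let b : ℕ → ℝ := fun j => 2 * C / c * (((2 : ℝ) ^ (-(1 / 2) : ℝ)) ^ j + ((2 : ℝ) ^ (-γ)) ^ j)
  have hbs : Summable b := by
    apply Summable.mul_left
    apply Summable.add
    · apply summable_geometric_of_lt_one (by positivity)
      exact Real.rpow_lt_one_of_one_lt_of_neg (by norm_num) (by norm_num)
    · apply summable_geometric_of_lt_one (by positivity)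
      exact Real.rpow_lt_one_of_one_lt_of_neg (by norm_num) (by linarith)
  have hpow : ∀ (j : ℕ) (x : ℝ), ((2 : ℝ) ^ x) ^ j = ((2 : ℝ) ^ j) ^ x := by
    intro j x
    rw [← Real.rpow_natCast, ← Real.rpow_mul (by norm_num), ← Real.rpow_natCast (2 : ℝ) j,
      ← Real.rpow_mul (by norm_num), mul_comm]
  have hmarkov : ∀ j, μ {θ | a j ≤ f j θ} ≤ ENNReal.ofReal (b j) := by
    intro j
    obtain ⟨hint, hle⟩ := hE (2 ^ j) (((2 : ℝ) ^ j) ^ (-β)) Nat.one_le_two_pow (hε0 j) (hε1 j)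
    have hm := mul_meas_ge_le_integral_of_nonneg (μ := μ) (f := f j)
      (Filter.Eventually.of_forall fun θ => Er_nonneg _ _ _ _ (hε0 j).le θ) hint (a j)
    have hle' : ∫ θ, f j θ ∂μ ≤ C * (((2 : ℝ) ^ j) ^ (-β) * ((2 : ℝ) ^ j) ^ ((s : ℝ) - k - 1 / 2) +
        ((2 : ℝ) ^ j) ^ ((s : ℝ) / 2)) := by
      have := hle
      rw [hcast] at this
      exact this
    have hb : C * (((2 : ℝ) ^ j) ^ (-β) * ((2 : ℝ) ^ j) ^ ((s : ℝ) - k - 1 / 2) +
        ((2 : ℝ) ^ j) ^ ((s : ℝ) / 2)) = a j * b j := by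
      simp only [a, b]
      rw [hpow, hpow]
      have e1 : ((2 : ℝ) ^ j) ^ (-β) * ((2 : ℝ) ^ j) ^ ((s : ℝ) - k - 1 / 2) =
          ((2 : ℝ) ^ j) ^ ((s : ℝ) - k - β) * ((2 : ℝ) ^ j) ^ (-(1 / 2) : ℝ) := by
        rw [← Real.rpow_add (hP0 j), ← Real.rpow_add (hP0 j)]
        congr 1; ring
      have e2 : ((2 : ℝ) ^ j) ^ ((s : ℝ) / 2) =
          ((2 : ℝ) ^ j) ^ ((s : ℝ) - k - β) * ((2 : ℝ) ^ j) ^ (-γ) := by
        rw [← Real.rpow_add (hP0 j)]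
        congr 1; simp only [γ]; ring
      rw [e1, e2]
      field_simp
    have hreal : μ.real {θ | a j ≤ f j θ} ≤ b j := by
      have : a j * μ.real {θ | a j ≤ f j θ} ≤ a j * b j := by
        rw [← hb]; exact hm.trans hle'
      exact le_of_mul_le_mul_left this (ha j)
    rw [← ENNReal.ofReal_toReal (measure_ne_top μ _)]
    exact ENNReal.ofReal_le_ofReal hreal
  have hsum : ∑' j, μ {θ | a j ≤ f j θ} ≠ ⊤ := by
    refine ne_top_of_le_ne_top ?_ (ENNReal.tsum_le_tsum hmarkov)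
    exact hbs.tsum_ofReal_ne_top
  have hae := ae_eventually_notMem hsum
  refine ⟨c / 2, by positivity, ?_⟩
  filter_upwards [hae] with θ hθ
  obtain ⟨j₀, hj₀⟩ := Filter.eventually_atTop.1 hθ
  refine ⟨j₀, fun j hj M hM1 hM2 => ?_⟩
  have hbad := hj₀ j hj
  simp only [Set.mem_setOf_eq, not_le] at hbad
  have hid := h2 k s (2 ^ j) (((2 : ℝ) ^ j) ^ (-β)) M θ (hε0 j)
  have hjl := hJ (2 ^ j) (((2 : ℝ) ^ j) ^ (-β)) M Nat.one_le_two_pow (hε0 j) (hε1 j)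
    (by rw [hcast]; exact hM1) (by rw [hcast]; exact hM2)
  rw [hcast] at hjl
  have e3 : c * ((2 : ℝ) ^ j) ^ (-β) * ((2 : ℝ) ^ j) ^ ((s : ℝ) - k) =
      c * ((2 : ℝ) ^ j) ^ ((s : ℝ) - k - β) := by
    rw [mul_assoc, ← Real.rpow_add (hP0 j)]
    congr 2; ring
  rw [e3] at hjl
  have h4 := abs_le.1 hid
  have h5 : f j θ < c / 2 * ((2 : ℝ) ^ j) ^ ((s : ℝ) - k - β) := hbad
  simp only [f] at h5
  linarith [h4.1]

end Pool.Agent.H867.WS
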